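import Pool.Agent.QSX.StmtsA

/-!
# Squad QSX, row FCP: the projection to a face is a homomorphism
-/

set_option autoImplicit false

namespace Pool.Agent.QSX.H49

open Matrix Finset Pool.Agent.QSX

section

variable {R : Type} [CommRing R] {m : ℕ} {r q : Fin m → Fin m → Prop}

theorem kp_pos {i l : Fin m} (g : Matrix (Fin m) (Fin m) R) (h : i = l ∨ q i l) :
    kp q g i l = g i l := by
  unfold kp
  exact if_pos h

theorem kp_neg {i l : Fin m} (g : Matrix (Fin m) (Fin m) R) (h : ¬ (i = l ∨ q i l)) :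
    kp q g i l = 0 := by
  unfold kp
  exact if_neg h

theorem kp_zero_of {i l : Fin m} {g : Matrix (Fin m) (Fin m) R} (h : g i l = 0) :
    kp q g i l = 0 := by
  by_cases h1 : i = l ∨ q i l
  · rw [kp_pos g h1, h]
  · exact kp_neg g h1

theorem kp_add (x y : Matrix (Fin m) (Fin m) R) : kp q (x + y) = kp q x + kp q y := by
  ext i l
  rw [Matrix.add_apply]
  by_cases h1 : i = l ∨ q i l
  · rw [kp_pos _ h1, kp_pos _ h1, kp_pos _ h1, Matrix.add_apply]
  · rw [kp_neg _ h1, kp_neg _ h1, kp_neg _ h1, add_zero]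

theorem kp_smul [Algebra ℝ R] (c : ℝ) (x : Matrix (Fin m) (Fin m) R) :
    kp q (c • x) = c • kp q x := by
  ext i l
  rw [Matrix.smul_apply]
  by_cases h1 : i = l ∨ q i l
  · rw [kp_pos _ h1, kp_pos _ h1, Matrix.smul_apply]
  · rw [kp_neg _ h1, kp_neg _ h1, smul_zero]

theorem kp_zero : kp q (0 : Matrix (Fin m) (Fin m) R) = 0 := by
  ext i l
  exact kp_zero_of rfl

theorem kp_one : kp q (1 : Matrix (Fin m) (Fin m) R) = 1 := by
  ext i l
  by_cases h : i = l
  · exact kp_pos _ (Or.inl h)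
  · rw [Matrix.one_apply_ne h]
    exact kp_zero_of (Matrix.one_apply_ne h)

theorem kp_sum {ι : Type} (s : Finset ι) (f : ι → Matrix (Fin m) (Fin m) R) :
    kp q (∑ k ∈ s, f k) = ∑ k ∈ s, kp q (f k) := by
  classical
  induction s using Finset.induction_on with
  | empty => rw [sum_empty, sum_empty, kp_zero]
  | insert a s ha ih => rw [sum_insert ha, sum_insert ha, kp_add, ih]

/-- strictly upper triangular and supported on `r` -/
def AA (r : Fin m → Fin m → Prop) (x : Matrix (Fin m) (Fin m) R) : Prop :=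
  SU x ∧ ∀ i l, i < l → x i l ≠ 0 → r i l

theorem AA.lt {x : Matrix (Fin m) (Fin m) R} (hx : AA r x) {i l : Fin m} (h : x i l ≠ 0) :
    i < l := by
  by_contra hcon
  exact h (hx.1 i l (not_lt.1 hcon))

theorem AA.mul (hr : ∀ i j k, i < j → j < k → r i j → r j k → r i k)
    {x y : Matrix (Fin m) (Fin m) R} (hx : AA r x) (hy : AA r y) : AA r (x * y) := by
  refine ⟨hx.1.mul hy.1, fun i l _ hne => ?_⟩
  rw [Matrix.mul_apply] at hne
  obtain ⟨k, -, hk⟩ := Finset.exists_ne_zero_of_sum_ne_zero hne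
  have h1 : x i k ≠ 0 := left_ne_zero_of_mul hk
  have h2 : y k l ≠ 0 := right_ne_zero_of_mul hk
  exact hr i k l (hx.lt h1) (hy.lt h2) (hx.2 i k (hx.lt h1) h1) (hy.2 k l (hy.lt h2) h2)

theorem kp_su {x : Matrix (Fin m) (Fin m) R} (hx : SU x) : SU (kp q x) := fun i l h =>
  kp_zero_of (hx i l h)

theorem kp_mul (hq : ∀ i j k, i < j → j < k → r i j → r j k → (q i k ↔ q i j ∧ q j k))
    {x y : Matrix (Fin m) (Fin m) R} (hx : AA r x) (hy : AA r y) :
    kp q (x * y) = kp q x * kp q y := by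
  ext i l
  rcases le_or_gt l i with h | h
  · rw [kp_zero_of ((hx.1.mul hy.1) i l h), ((kp_su hx.1).mul (kp_su hy.1)) i l h]
  · have hne : i ≠ l := ne_of_lt h
    rw [Matrix.mul_apply]
    by_cases hil : q i l
    · rw [kp_pos _ (Or.inr hil), Matrix.mul_apply]
      refine Finset.sum_congr rfl fun k _ => ?_
      by_cases h1 : x i k = 0
      · rw [h1, kp_zero_of h1, zero_mul, zero_mul]
      · by_cases h2 : y k l = 0
        · rw [h2, kp_zero_of h2, mul_zero, mul_zero]
        · have h3 := (hq i k l (hx.lt h1) (hy.lt h2) (hx.2 i k (hx.lt h1) h1)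
            (hy.2 k l (hy.lt h2) h2)).1 hil
          rw [kp_pos _ (Or.inr h3.1), kp_pos _ (Or.inr h3.2)]
    · rw [kp_neg _ (by rintro (h1 | h1); exacts [hne h1, hil h1])]
      symm
      refine Finset.sum_eq_zero fun k _ => ?_
      by_contra hk
      have h1 : kp q x i k ≠ 0 := left_ne_zero_of_mul hk
      have h2 : kp q y k l ≠ 0 := right_ne_zero_of_mul hk
      have h3 : x i k ≠ 0 := fun h => h1 (kp_zero_of h)
      have h4 : y k l ≠ 0 := fun h => h2 (kp_zero_of h)
      have h5 : q i k := by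
        by_contra hcon
        exact h1 (kp_neg _ (by rintro (h6 | h6); exacts [ne_of_lt (hx.lt h3) h6, hcon h6]))
      have h6 : q k l := by
        by_contra hcon
        exact h2 (kp_neg _ (by rintro (h6 | h6); exacts [ne_of_lt (hy.lt h4) h6, hcon h6]))
      exact hil ((hq i k l (hx.lt h3) (hy.lt h4) (hx.2 i k (hx.lt h3) h3)
        (hy.2 k l (hy.lt h4) h4)).2 ⟨h5, h6⟩)

theorem sp_aa {g : Matrix (Fin m) (Fin m) R} (hg : Sp r g) : AA r (g - 1) := by
  refine ⟨hg.1, fun i l h hne => hg.2 i l h ?_⟩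
  rwa [Matrix.sub_apply, Matrix.one_apply_ne (ne_of_lt h), sub_zero] at hne

theorem kp_one_add (x : Matrix (Fin m) (Fin m) R) : kp q (1 + x) = 1 + kp q x := by
  rw [kp_add, kp_one]

theorem kp_mul_sp (hq : ∀ i j k, i < j → j < k → r i j → r j k → (q i k ↔ q i j ∧ q j k))
    {g h : Matrix (Fin m) (Fin m) R} (hg : Sp r g) (hh : Sp r h) :
    kp q (g * h) = kp q g * kp q h := by
  obtain ⟨x, hx⟩ : ∃ x, x = g - 1 := ⟨_, rfl⟩
  obtain ⟨y, hy⟩ : ∃ y, y = h - 1 := ⟨_, rfl⟩
  have hgx : g = 1 + x := by rw [hx]; abel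
  have hhy : h = 1 + y := by rw [hy]; abel
  have ax : AA r x := by rw [hx]; exact sp_aa hg
  have ay : AA r y := by rw [hy]; exact sp_aa hh
  have e : (1 + x) * (1 + y) = 1 + (x + y + x * y) := by noncomm_ring
  rw [hgx, hhy, e, kp_one_add, kp_one_add, kp_one_add, kp_add, kp_add, kp_mul hq ax ay]
  noncomm_ring

theorem kp_sp {g : Matrix (Fin m) (Fin m) R} (hg : Sp r g) : Sp r (kp q g) := by
  constructor
  · have e : kp q g - 1 = kp q (g - 1) := by
      have h1 : g = 1 + (g - 1) := by abel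
      conv_lhs => rw [h1, kp_one_add]
      abel
    show SU (kp q g - 1)
    rw [e]
    exact kp_su hg.1
  · intro i l h hne
    exact hg.2 i l h fun h0 => hne (kp_zero_of h0)

theorem kp_pow (hr : ∀ i j k, i < j → j < k → r i j → r j k → r i k)
    (hq : ∀ i j k, i < j → j < k → r i j → r j k → (q i k ↔ q i j ∧ q j k))
    {x : Matrix (Fin m) (Fin m) R} (hx : AA r x) (k : ℕ) :
    AA r (x ^ (k + 1)) ∧ kp q (x ^ (k + 1)) = (kp q x) ^ (k + 1) := by
  induction k with
  | zero =>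
    rw [zero_add, pow_one, pow_one]
    exact ⟨hx, rfl⟩
  | succ k ih =>
    rw [pow_succ x, pow_succ (kp q x), kp_mul hq ih.1 hx, ih.2]
    exact ⟨ih.1.mul hr hx, rfl⟩

end

/-- **FCP**. -/
theorem fcp (hS : SptStmt) : FcpStmt := by
  intro R _ _ m r q hr hq
  obtain ⟨⟨G, hG⟩, -, -⟩ := hS R m r hr
  have hsp : ∀ g : G, Sp r ((g : (Matrix (Fin m) (Fin m) R)ˣ) : Matrix (Fin m) (Fin m) R) :=
    fun g => (hG g).1 g.2
  have hmul : ∀ g h : G,
      kp q ((g : (Matrix (Fin m) (Fin m) R)ˣ) : Matrix (Fin m) (Fin m) R) *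
        kp q ((h : (Matrix (Fin m) (Fin m) R)ˣ) : Matrix (Fin m) (Fin m) R) =
      kp q (((g * h : G) : (Matrix (Fin m) (Fin m) R)ˣ) : Matrix (Fin m) (Fin m) R) := by
    intro g h
    rw [← kp_mul_sp hq (hsp g) (hsp h)]
    rfl
  have hone : kp q (((1 : G) : (Matrix (Fin m) (Fin m) R)ˣ) : Matrix (Fin m) (Fin m) R) = 1 :=
    kp_one
  let π : G →* (Matrix (Fin m) (Fin m) R)ˣ :=
    { toFun := fun g =>
        { val := kp q ((g : (Matrix (Fin m) (Fin m) R)ˣ) : Matrix (Fin m) (Fin m) R)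
          inv := kp q (((g⁻¹ : G) : (Matrix (Fin m) (Fin m) R)ˣ) : Matrix (Fin m) (Fin m) R)
          val_inv := by rw [hmul, mul_inv_cancel, hone]
          inv_val := by rw [hmul, inv_mul_cancel, hone] }
      map_one' := Units.ext hone
      map_mul' := fun g h => Units.ext (hmul g h).symm }
  refine ⟨G, π, hG, fun g => rfl, fun g => (hG _).2 (kp_sp (hsp g)), ?_⟩
  intro x hx hxr
  have hx' : AA r x := ⟨hx, hxr⟩
  unfold mexp
  rw [kp_sum]
  refine Finset.sum_congr rfl fun k _ => ?_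
  rw [kp_smul]
  congr 1
  rcases k with _ | k
  · rw [pow_zero, pow_zero, kp_one]
  · exact (kp_pow hr hq hx' k).2

end Pool.Agent.QSX.H49
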