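import Pool.Agent.QSX.StmtsM

/-!
# Squad QSX, row MEA: from families to a right invariant mean
-/

set_option autoImplicit false

namespace Pool.Agent.QSX.H49

open Filter Topology Pool.Agent.QSX

/-- **MEA**. -/
theorem mea : MeaStmt := by
  classical
  intro G _ hF
  have hch : ∀ i : Finset G × ℕ, ∃ (N : ℕ) (p : Fin N → G), 0 < N ∧
      ∀ h ∈ i.1, ∀ F : G → ℝ, (∀ g, |F g| ≤ 1) →
        |∑ k, F (p k * h) - ∑ k, F (p k)| ≤ (1 / ((i.2 : ℝ) + 1)) * N := fun i =>
    hF i.1 (1 / ((i.2 : ℝ) + 1)) (by positivity)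
  choose N p hN hp using hch
  obtain ⟨A, hA⟩ : ∃ A : (Finset G × ℕ) → (G → ℝ) → ℝ,
      A = fun i f => (∑ k, f (p i k)) / (N i : ℝ) := ⟨_, rfl⟩
  have hA' : ∀ i f, A i f = (∑ k, f (p i k)) / (N i : ℝ) := fun i f => by rw [hA]
  have hN' : ∀ i, (0 : ℝ) < N i := fun i => by exact_mod_cast hN i
  let U : Ultrafilter (Finset G × ℕ) := Ultrafilter.of atTop
  have hU : (U : Filter (Finset G × ℕ)) ≤ atTop := Ultrafilter.of_le _
  have hbd : ∀ (f : G → ℝ) (C : ℝ), (∀ x, |f x| ≤ C) → ∀ i, |A i f| ≤ C := by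
    intro f C hC i
    rw [hA', abs_div, abs_of_pos (hN' i), div_le_iff₀ (hN' i)]
    refine (Finset.abs_sum_le_sum_abs _ _).trans ?_
    refine (Finset.sum_le_sum fun k _ => hC (p i k)).trans ?_
    rw [Finset.sum_const, Finset.card_univ, Fintype.card_fin, nsmul_eq_mul, mul_comm]
  have hconv : ∀ f : G → ℝ, (∃ C, ∀ x, |f x| ≤ C) →
      ∃ x, Tendsto (fun i => A i f) (U : Filter (Finset G × ℕ)) (𝓝 x) := by
    rintro f ⟨C, hC⟩
    have h1 : IsCompact (Set.Icc (-C) C) := isCompact_Icc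
    have h2 : ((U.map (fun i => A i f) : Ultrafilter ℝ) : Filter ℝ) ≤ 𝓟 (Set.Icc (-C) C) := by
      rw [le_principal_iff]
      refine Filter.Eventually.of_forall (p := fun i => A i f ∈ Set.Icc (-C) C) fun i => ?_
      exact abs_le.1 (hbd f C hC i)
    obtain ⟨x, -, hx⟩ := h1.ultrafilter_le_nhds _ h2
    exact ⟨x, hx⟩
  let M : (G → ℝ) → ℝ := fun f => limUnder (U : Filter (Finset G × ℕ)) (fun i => A i f)
  have hM : ∀ f : G → ℝ, (∃ C, ∀ x, |f x| ≤ C) →
      Tendsto (fun i => A i f) (U : Filter (Finset G × ℕ)) (𝓝 (M f)) := fun f hf =>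
    tendsto_nhds_limUnder (hconv f hf)
  refine ⟨M, ?_, ?_, ?_, ?_, ?_⟩
  · intro f g hf hg
    have h1 := (hM f hf).add (hM g hg)
    have h2 : ∃ C, ∀ x, |(f + g) x| ≤ C := by
      obtain ⟨C, hC⟩ := hf
      obtain ⟨D, hD⟩ := hg
      exact ⟨C + D, fun x => (abs_add_le _ _).trans (add_le_add (hC x) (hD x))⟩
    refine tendsto_nhds_unique (hM _ h2) (h1.congr fun i => ?_)
    rw [hA', hA', hA', ← add_div, ← Finset.sum_add_distrib]
    rfl
  · intro c f hf
    have h1 := (hM f hf).const_mul c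
    have h2 : ∃ C, ∀ x, |(c • f) x| ≤ C := by
      obtain ⟨C, hC⟩ := hf
      refine ⟨|c| * C, fun x => ?_⟩
      rw [Pi.smul_apply, smul_eq_mul, abs_mul]
      exact mul_le_mul_of_nonneg_left (hC x) (abs_nonneg c)
    refine tendsto_nhds_unique (hM _ h2) (h1.congr fun i => ?_)
    rw [hA', hA', ← mul_div_assoc, Finset.mul_sum]
    rfl
  · intro f hf h0
    refine ge_of_tendsto' (hM f hf) fun i => ?_
    rw [hA']
    exact div_nonneg (Finset.sum_nonneg fun k _ => h0 _) (hN' i).le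
  · have h1 : ∃ C, ∀ x : G, |(fun _ => (1 : ℝ)) x| ≤ C := ⟨1, fun x => by simp⟩
    refine tendsto_nhds_unique (hM _ h1) (tendsto_const_nhds.congr fun i => ?_)
    rw [hA', Finset.sum_const, Finset.card_univ, Fintype.card_fin, nsmul_eq_mul, mul_one,
      div_self (hN' i).ne']
  · intro f u hf
    have h2 : ∃ C, ∀ x, |(fun x => f (x * u)) x| ≤ C := by
      obtain ⟨C, hC⟩ := hf
      exact ⟨C, fun x => hC _⟩
    have h3 := (hM _ h2).sub (hM f hf)
    have h4 : Tendsto (fun i : Finset G × ℕ => A i (fun x => f (x * u)) - A i f)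
        (U : Filter (Finset G × ℕ)) (𝓝 0) := by
      obtain ⟨C, hC⟩ := hf
      obtain ⟨D, hD⟩ : ∃ D : ℝ, D = max C 1 := ⟨_, rfl⟩
      have hD0 : 0 < D := by rw [hD]; exact lt_of_lt_of_le one_pos (le_max_right _ _)
      have hCD : ∀ x, |f x| ≤ D := fun x => (hC x).trans (by rw [hD]; exact le_max_left _ _)
      have hlim : Tendsto (fun i : Finset G × ℕ => D * (1 / ((i.2 : ℝ) + 1)))
          (U : Filter (Finset G × ℕ)) (𝓝 0) := by
        have h5 : Tendsto (fun i : Finset G × ℕ => 1 / ((i.2 : ℝ) + 1)) atTop (𝓝 0) := by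
          rw [← prod_atTop_atTop_eq]
          exact tendsto_one_div_add_atTop_nhds_zero_nat.comp tendsto_snd
        have h6 := (h5.mono_left hU).const_mul D
        rwa [mul_zero] at h6
      have hev : ∀ᶠ i : Finset G × ℕ in (U : Filter (Finset G × ℕ)),
          ‖A i (fun x => f (x * u)) - A i f‖ ≤ D * (1 / ((i.2 : ℝ) + 1)) := by
        have h7 : ∀ᶠ i : Finset G × ℕ in atTop, (({u} : Finset G), 0) ≤ i :=
          eventually_ge_atTop _
        refine (h7.filter_mono hU).mono fun i hi => ?_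
        have hui : u ∈ i.1 := hi.1 (Finset.mem_singleton_self u)
        have h8 := hp i u hui (fun x => f x / D) (fun x => by
          rw [abs_div, abs_of_pos hD0, div_le_one hD0]
          exact hCD x)
        rw [← Finset.sum_div, ← Finset.sum_div, ← sub_div, abs_div, abs_of_pos hD0,
          div_le_iff₀ hD0] at h8
        rw [hA', hA', ← sub_div, Real.norm_eq_abs, abs_div, abs_of_pos (hN' i),
          div_le_iff₀ (hN' i)]
        calc _ ≤ 1 / ((i.2 : ℝ) + 1) * (N i : ℝ) * D := h8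
          _ = _ := by ring
      exact squeeze_zero_norm' hev hlim
    have h9 := tendsto_nhds_unique h3 h4
    linarith

end Pool.Agent.QSX.H49
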