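import Pool.Agent.QSX.StmtsM

/-!
# Squad QSX, row SEQ: the sequence of good base points
-/

set_option autoImplicit false

namespace Pool.Agent.QSX.H49

open Filter Topology Pool.Agent.QSX

/-- A sequence of finite sets of test data, eventually dense in `Nn × ball`. -/
theorem exists_tests (G VX : Type) [NormedAddCommGroup VX] [NormedSpace ℝ VX]
    [FiniteDimensional ℝ VX] (Nn : Set G) (hc : Nn.Countable) :
    ∃ T : ℕ → Finset (G × VX), (∀ s, ∀ t ∈ T s, t.1 ∈ Nn) ∧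
      ∀ n ∈ Nn, ∀ᶠ s in atTop, ∀ a : VX, ‖a‖ ≤ 1 →
        ∃ a' : VX, (n, a') ∈ T s ∧ ‖a - a'‖ ≤ 1 / ((s : ℝ) + 1) := by
  classical
  rcases Set.eq_empty_or_nonempty Nn with hne | hne
  · refine ⟨fun _ => ∅, fun s t ht => absurd ht (Finset.notMem_empty t), fun n hn => ?_⟩
    rw [hne] at hn
    exact absurd hn (Set.notMem_empty n)
  · obtain ⟨f, hf⟩ := hc.exists_eq_range hne
    have hprop : ProperSpace VX := FiniteDimensional.proper_real VX
    have hcov : ∀ s : ℕ, ∃ B : Finset VX, ∀ a : VX, ‖a‖ ≤ 1 →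
        ∃ a' ∈ B, ‖a - a'‖ ≤ 1 / ((s : ℝ) + 1) := by
      intro s
      have h1 : IsCompact (Metric.closedBall (0 : VX) 1) := isCompact_closedBall _ _
      obtain ⟨t, -, htf, ht⟩ := h1.finite_cover_balls (e := 1 / ((s : ℝ) + 1)) (by positivity)
      refine ⟨htf.toFinset, fun a ha => ?_⟩
      have h2 := ht (mem_closedBall_zero_iff.2 ha)
      obtain ⟨a', ha', hb⟩ := Set.mem_iUnion₂.1 h2
      refine ⟨a', (htf.mem_toFinset).2 ha', ?_⟩
      rw [← dist_eq_norm]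
      exact (Metric.mem_ball.1 hb).le
    choose B hB using hcov
    refine ⟨fun s => ((Finset.range (s + 1)) ×ˢ (B s)).image (fun q => (f q.1, q.2)), ?_, ?_⟩
    · intro s t ht
      obtain ⟨q, -, rfl⟩ := Finset.mem_image.1 ht
      rw [hf]
      exact ⟨q.1, rfl⟩
    · intro n hn
      rw [hf] at hn
      obtain ⟨i, rfl⟩ := hn
      filter_upwards [eventually_ge_atTop i] with s hs a ha
      obtain ⟨a', ha', hb⟩ := hB s a ha
      exact ⟨a', Finset.mem_image.2 ⟨(i, a'), Finset.mem_product.2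
        ⟨Finset.mem_range.2 (by show i < s + 1; omega), ha'⟩, rfl⟩, hb⟩

/-- **SEQ**. -/
theorem seq : SeqStmt := by
  intro hT hH hE hN G _ M hM V _ _ VX _ _ _ d hc
  obtain ⟨K', hK0, hK⟩ := hT hH hE hN G M hM V VX d
  obtain ⟨T, hT1, hT2⟩ := exists_tests G VX d.Nn hc
  have hch := fun s : ℕ => hK (T s) (hT1 s) (1 / ((s : ℝ) + 1)) (by positivity) s
  choose j x Q hj hj1 hQ hmain using hch
  refine ⟨K', j, x, Q, hK0, tendsto_atTop_mono hj tendsto_id, hj1, hQ, ?_⟩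
  intro n hn ε hε
  obtain ⟨E, hE⟩ : ∃ E : ℝ, E = 1 + d.L * d.K + K' + d.C := ⟨_, rfl⟩
  have hLK : 0 ≤ d.L * d.K := mul_nonneg d.L0 d.K0
  filter_upwards [hT2 n hn, eventually_ge_atTop (max 1 ⌈E / ε⌉₊)] with s h1 h2 a ha
  obtain ⟨a', ha', hb⟩ := h1 a ha
  have hs1 : (1 : ℝ) ≤ s := by
    have : 1 ≤ s := (le_max_left _ _).trans h2
    exact_mod_cast this
  have hs2 : E ≤ ε * s := by
    have h3 : ⌈E / ε⌉₊ ≤ s := (le_max_right _ _).trans h2
    have h4 : E / ε ≤ s := (Nat.le_ceil _).trans (by exact_mod_cast h3)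
    rw [div_le_iff₀ hε] at h4
    linarith
  have hjs : (s : ℝ) ≤ j s := by exact_mod_cast hj s
  have hj0 : (0 : ℝ) < j s := by linarith
  have h5 := hmain s (n, a') ha'
  simp only at h5
  -- the step from `a'` to `a`
  have h6 : d.h (x s * n * d.A ((j s : ℝ) • a)) =
      d.h (x s * n * d.A ((j s : ℝ) • a') * d.A ((j s : ℝ) • (a - a'))) := by
    rw [mul_assoc (x s * n), ← d.add, ← smul_add, add_sub_cancel]
  have h7 : ‖d.h (x s * n * d.A ((j s : ℝ) • a)) - d.h (x s * n * d.A ((j s : ℝ) • a'))‖ ≤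
      d.L * d.K * ((j s : ℝ) * (1 / ((s : ℝ) + 1))) + d.C := by
    rw [h6]
    refine (d.lip _ _).trans ?_
    have h8 := d.len ((j s : ℝ) • (a - a'))
    rw [norm_smul, Real.norm_eq_abs, abs_of_pos hj0] at h8
    have h9 : (j s : ℝ) * ‖a - a'‖ ≤ (j s : ℝ) * (1 / ((s : ℝ) + 1)) :=
      mul_le_mul_of_nonneg_left hb hj0.le
    have h10 := mul_le_mul_of_nonneg_left (h8.trans (mul_le_mul_of_nonneg_left h9 d.K0)) d.L0
    linarith
  have h11 : ‖(j s : ℝ) • Q s a' - (j s : ℝ) • Q s a‖ ≤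
      K' * ((j s : ℝ) * (1 / ((s : ℝ) + 1))) := by
    rw [← smul_sub, ← map_sub, norm_smul, Real.norm_eq_abs, abs_of_pos hj0]
    have h12 := hQ s (a' - a)
    rw [norm_sub_rev a' a] at h12
    have h13 := h12.trans (mul_le_mul_of_nonneg_left hb hK0)
    have h14 := mul_le_mul_of_nonneg_left h13 hj0.le
    calc _ ≤ (j s : ℝ) * (K' * (1 / ((s : ℝ) + 1))) := h14
      _ = _ := by ring
  have h15 : d.h (x s * n * d.A ((j s : ℝ) • a)) - d.h (x s) - (j s : ℝ) • Q s a =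
      (d.h (x s * n * d.A ((j s : ℝ) • a)) - d.h (x s * n * d.A ((j s : ℝ) • a'))) +
      (d.h (x s * n * d.A ((j s : ℝ) • a')) - d.h (x s) - (j s : ℝ) • Q s a') +
      ((j s : ℝ) • Q s a' - (j s : ℝ) • Q s a) := by abel
  rw [h15]
  refine (norm_add₃_le).trans ?_
  obtain ⟨δ, hδ⟩ : ∃ δ : ℝ, δ = 1 / ((s : ℝ) + 1) := ⟨_, rfl⟩
  rw [← hδ] at h5 h7 h11
  have hδ0 : 0 ≤ δ := by rw [hδ]; positivity
  have hδs : δ * s ≤ 1 := by
    rw [hδ, one_div, inv_mul_le_iff₀ (by linarith)]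
    linarith
  have h16 : (d.L * d.K * ((j s : ℝ) * δ) + d.C + δ * (j s : ℝ) + K' * ((j s : ℝ) * δ)) * s ≤
      ε * (j s : ℝ) * s := by
    have e1 : (d.L * d.K * ((j s : ℝ) * δ) + d.C + δ * (j s : ℝ) + K' * ((j s : ℝ) * δ)) * s =
        (j s : ℝ) * (1 + d.L * d.K + K') * (δ * s) + d.C * s := by ring
    rw [e1]
    have e2 : (j s : ℝ) * (1 + d.L * d.K + K') * (δ * s) ≤ (j s : ℝ) * (1 + d.L * d.K + K') * 1 :=
      mul_le_mul_of_nonneg_left hδs (by positivity)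
    have e3 : d.C * s ≤ d.C * j s := mul_le_mul_of_nonneg_left hjs d.C0
    have e4 : (j s : ℝ) * E ≤ (j s : ℝ) * (ε * s) := mul_le_mul_of_nonneg_left hs2 hj0.le
    rw [hE] at e4
    nlinarith
  have h17 := le_of_mul_le_mul_right h16 (by linarith : (0 : ℝ) < s)
  linarith

end Pool.Agent.QSX.H49
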