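import Pool.Agent.QSX.StmtsF

/-!
# Squad QSX, row SOM: the data of the split orthogonal groups are split
-/

set_option autoImplicit false

namespace Pool.Agent.QSX.H49

open Matrix Finset Pool.Agent.QSX

/-- the root vectors -/
def EE {m : ℕ} (i j : Fin m) : Matrix (Fin m) (Fin m) ℝ :=
  Matrix.of fun a b => (if a = i ∧ b = j then 1 else 0) -
    (if a = Fin.rev j ∧ b = Fin.rev i then 1 else 0)

theorem EE_apply {m : ℕ} (i j a b : Fin m) : EE i j a b = (if a = i ∧ b = j then (1 : ℝ) else 0) -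
    (if a = Fin.rev j ∧ b = Fin.rev i then 1 else 0) := rfl

/-- the index set -/
abbrev RI (m : ℕ) : Type := {p : Fin m × Fin m // p.1 < p.2 ∧ (p.1 : ℕ) + p.2 + 1 < m}

theorem EE_mul {m : ℕ} (i j a b : Fin m) (M : Matrix (Fin m) (Fin m) ℝ) :
    (EE i j * M) a b = (if a = i then M j b else 0) - (if a = Fin.rev j then M (Fin.rev i) b else 0) := by
  have h : ∀ (P : Prop) [Decidable P] (c : Fin m),
      ∑ k, (if P ∧ k = c then (1 : ℝ) else 0) * M k b = if P then M c b else 0 := by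
    intro P _ c
    by_cases hP : P
    · simp [hP]
    · simp [hP]
  rw [Matrix.mul_apply]
  simp only [EE_apply, sub_mul, Finset.sum_sub_distrib]
  rw [h, h]

theorem EE_su {m : ℕ} {i j : Fin m} (h : i < j) : SU (EE i j) := by
  intro a b hab
  rw [EE_apply, if_neg, if_neg, sub_zero]
  · rintro ⟨rfl, rfl⟩
    rw [Fin.le_def, Fin.val_rev, Fin.val_rev] at hab
    rw [Fin.lt_def] at h
    have := i.2
    have := j.2
    omega
  · rintro ⟨rfl, rfl⟩
    exact absurd hab (not_le.2 h)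

theorem EE_anti {m : ℕ} (i j a b : Fin m) :
    EE i j (Fin.rev b) (Fin.rev a) = - EE i j a b := by
  rw [EE_apply, EE_apply, neg_sub]
  congr 1
  · refine if_congr ?_ rfl rfl
    rw [Fin.rev_eq_iff, Fin.rev_eq_iff]
    exact and_comm
  · refine if_congr ?_ rfl rfl
    rw [Fin.rev_inj, Fin.rev_inj]
    exact and_comm

/-- the entries in the fundamental region -/
theorem EE_fund {m : ℕ} (l : RI m) (a b : Fin m) (h2 : (a : ℕ) + b + 1 < m) :
    EE l.1.1 l.1.2 a b = if a = l.1.1 ∧ b = l.1.2 then 1 else 0 := by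
  obtain ⟨⟨i, j⟩, h3, h4⟩ := l
  simp only at h3 h4
  rw [EE_apply, if_neg (c := a = Fin.rev j ∧ b = Fin.rev i), sub_zero]
  rintro ⟨rfl, rfl⟩
  rw [Fin.val_rev, Fin.val_rev] at h2
  have := i.2
  have := j.2
  omega

theorem sum_fund {m : ℕ} (g : RI m → ℝ) (l : RI m) :
    (∑ l' : RI m, g l' • EE l'.1.1 l'.1.2) l.1.1 l.1.2 = g l := by
  rw [Matrix.sum_apply, Finset.sum_eq_single l]
  · rw [Matrix.smul_apply, EE_fund l _ _ l.2.2, if_pos ⟨rfl, rfl⟩, smul_eq_mul, mul_one]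
  · intro l' _ hne
    rw [Matrix.smul_apply, EE_fund l' _ _ l.2.2, if_neg, smul_zero]
    rintro ⟨h1, h2⟩
    exact hne (Subtype.ext (Prod.ext h1.symm h2.symm))
  · intro h
    exact absurd (mem_univ _) h

theorem sum_su {m : ℕ} (g : RI m → ℝ) : SU (∑ l' : RI m, g l' • EE l'.1.1 l'.1.2) := by
  intro a b hab
  rw [Matrix.sum_apply]
  refine Finset.sum_eq_zero fun l _ => ?_
  rw [Matrix.smul_apply, EE_su l.2.1 a b hab, smul_zero]

theorem sum_anti {m : ℕ} (g : RI m → ℝ) (a b : Fin m) :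
    (∑ l' : RI m, g l' • EE l'.1.1 l'.1.2) (Fin.rev b) (Fin.rev a) =
      - (∑ l' : RI m, g l' • EE l'.1.1 l'.1.2) a b := by
  rw [Matrix.sum_apply, Matrix.sum_apply, ← Finset.sum_neg_distrib]
  refine Finset.sum_congr rfl fun l _ => ?_
  rw [Matrix.smul_apply, Matrix.smul_apply, EE_anti, smul_neg]

/-- an antisymmetric strictly upper triangular matrix is determined by the fundamental entries -/
theorem ext_fund {m : ℕ} {x y : Matrix (Fin m) (Fin m) ℝ} (hx : SU x) (hy : SU y)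
    (ax : ∀ a b, x (Fin.rev b) (Fin.rev a) = - x a b)
    (ay : ∀ a b, y (Fin.rev b) (Fin.rev a) = - y a b)
    (h : ∀ l : RI m, x l.1.1 l.1.2 = y l.1.1 l.1.2) : x = y := by
  have hf : ∀ a b : Fin m, a < b → (a : ℕ) + b + 1 < m → x a b = y a b := fun a b h1 h2 =>
    h ⟨(a, b), h1, h2⟩
  ext a b
  rcases le_or_gt b a with h1 | h1
  · rw [hx a b h1, hy a b h1]
  · rcases lt_trichotomy ((a : ℕ) + b + 1) m with h2 | h2 | h2
    · exact hf a b h1 h2
    · have hb : b = Fin.rev a := by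
        rw [Fin.ext_iff, Fin.val_rev]
        omega
      have key : ∀ z : Matrix (Fin m) (Fin m) ℝ,
          (∀ a b, z (Fin.rev b) (Fin.rev a) = - z a b) → z a b = 0 := by
        intro z hz
        have h3 := hz a b
        rw [hb, Fin.rev_rev] at h3
        rw [hb]
        linarith
      rw [key x ax, key y ay]
    · have h3 := ax a b
      have h4 := ay a b
      have h5 : x (Fin.rev b) (Fin.rev a) = y (Fin.rev b) (Fin.rev a) := by
        refine hf _ _ ?_ ?_
        · rw [Fin.lt_def] at h1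
          rw [Fin.lt_def, Fin.val_rev, Fin.val_rev]
          have := a.2
          have := b.2
          omega
        · rw [Fin.val_rev, Fin.val_rev]
          have := a.2
          have := b.2
          omega
      linarith

/-- the vectors of `b` -/
def vv {m : ℕ} (p : Fin m) : Fin m → ℝ := fun a =>
  (if a = p then 1 else 0) - (if a = Fin.rev p then 1 else 0)

theorem vv_anti {m : ℕ} (p a : Fin m) : vv p (Fin.rev a) = - vv p a := by
  unfold vv
  rw [neg_sub]
  congr 1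
  · refine if_congr ?_ rfl rfl
    rw [Fin.rev_eq_iff]
  · refine if_congr ?_ rfl rfl
    rw [Fin.rev_inj]

theorem vv_of_ne {m : ℕ} {p a : Fin m} (h1 : a ≠ p) (h2 : a ≠ Fin.rev p) : vv p a = 0 := by
  unfold vv
  rw [if_neg h1, if_neg h2, sub_zero]

theorem vv_self {m : ℕ} {p : Fin m} (h2 : p ≠ Fin.rev p) : vv p p = 1 := by
  unfold vv
  rw [if_pos rfl, if_neg h2, sub_zero]

theorem vv_le {m : ℕ} {p a : Fin m} (h1 : a ≠ p) : vv p a ≤ 0 := by
  unfold vv
  rw [if_neg h1]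
  split <;> norm_num

theorem wt_aux {m : ℕ} (c : Fin m → ℝ) (hc : ∀ i, c (Fin.rev i) = - c i) (i j : Fin m) :
    diagonal c * EE i j - EE i j * diagonal c = (c i - c j) • EE i j := by
  ext a b
  rw [Matrix.sub_apply, Matrix.diagonal_mul, Matrix.mul_diagonal, Matrix.smul_apply, smul_eq_mul,
    EE_apply]
  by_cases h1 : a = i ∧ b = j
  · by_cases h2 : a = Fin.rev j ∧ b = Fin.rev i
    · rw [if_pos h1, if_pos h2]
      ring
    · rw [if_pos h1, if_neg h2, h1.1, h1.2]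
      ring
  · by_cases h2 : a = Fin.rev j ∧ b = Fin.rev i
    · rw [if_neg h1, if_pos h2, h2.1, h2.2, hc, hc]
      ring
    · rw [if_neg h1, if_neg h2]
      ring

/-- the roots are not proportional -/
theorem nonprop_aux {m : ℕ} {l l' : RI m} (hne : l ≠ l') (t : ℝ)
    (h : ∀ c : Fin m → ℝ, (∀ i, c (Fin.rev i) = - c i) →
      c l.1.1 - c l.1.2 = t * (c l'.1.1 - c l'.1.2)) : False := by
  obtain ⟨⟨i, j⟩, h1, h2⟩ := l
  obtain ⟨⟨i', j'⟩, h1', h2'⟩ := l'
  simp only at h1 h2 h1' h2' h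
  have hv := fun p : Fin m => h (vv p) (vv_anti p)
  rw [Fin.lt_def] at h1 h1'
  have ne1 : ∀ {x y : Fin m}, (x : ℕ) ≠ y → x ≠ y := fun h h' => h (by rw [h'])
  have A : vv i i - vv i j = 1 := by
    rw [vv_self (ne1 (by rw [Fin.val_rev]; omega)), vv_of_ne (ne1 (by omega))
      (ne1 (by rw [Fin.val_rev]; omega)), sub_zero]
  have A' : vv i' i' - vv i' j' = 1 := by
    rw [vv_self (ne1 (by rw [Fin.val_rev]; omega)), vv_of_ne (ne1 (by omega))
      (ne1 (by rw [Fin.val_rev]; omega)), sub_zero]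
  rcases lt_trichotomy (i : ℕ) i' with h3 | h3 | h3
  · have B : vv i i' - vv i j' = 0 := by
      rw [vv_of_ne (ne1 (by omega)) (ne1 (by rw [Fin.val_rev]; omega)), vv_of_ne (ne1 (by omega))
        (ne1 (by rw [Fin.val_rev]; omega)), sub_zero]
    have h4 := hv i
    rw [A, B] at h4
    norm_num at h4
  · have e : i = i' := Fin.ext h3
    subst e
    have h4 := hv i
    rw [A, A', mul_one] at h4
    have hj : j ≠ j' := by
      rintro rfl
      exact hne rfl
    by_cases h5 : j = Fin.rev j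
    · have h6 : j' ≠ Fin.rev j' := by
        intro h7
        apply hj
        rw [Fin.ext_iff, Fin.val_rev] at h5 h7
        rw [Fin.ext_iff]
        omega
      have h7 := hv j'
      rw [← h4, one_mul, vv_self h6] at h7
      have h8 := vv_le (p := j') hj
      linarith
    · have h7 := hv j
      rw [← h4, one_mul, vv_self h5] at h7
      have h8 := vv_le (p := j) (Ne.symm hj)
      linarith
  · have B : vv i' i - vv i' j = 0 := by
      rw [vv_of_ne (ne1 (by omega)) (ne1 (by rw [Fin.val_rev]; omega)), vv_of_ne (ne1 (by omega))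
        (ne1 (by rw [Fin.val_rev]; omega)), sub_zero]
    have h4 := hv i'
    rw [A', B, mul_one] at h4
    have h5 := hv i
    rw [A, ← h4, zero_mul] at h5
    norm_num at h5

theorem sep_aux {m : ℕ} (hm : 3 ≤ m) (c : Fin m → ℝ) (hc : ∀ i, c (Fin.rev i) = - c i)
    (h : ∀ l : RI m, c l.1.1 - c l.1.2 = 0) : c = 0 := by
  obtain ⟨z, hz⟩ : ∃ z : Fin m, (z : ℕ) = 0 := ⟨⟨0, by omega⟩, rfl⟩
  have h1 : ∀ j : Fin m, 1 ≤ (j : ℕ) → (j : ℕ) + 1 < m → c z = c j := by
    intro j h2 h3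
    have h4 := h ⟨(z, j), by rw [Fin.lt_def]; simp only; omega, by simp only; omega⟩
    simp only at h4
    linarith
  obtain ⟨o, ho⟩ : ∃ o : Fin m, (o : ℕ) = 1 := ⟨⟨1, by omega⟩, rfl⟩
  have h2 := h1 o (by omega) (by omega)
  have h3 := h1 (Fin.rev o) (by rw [Fin.val_rev]; omega) (by rw [Fin.val_rev]; omega)
  rw [hc o] at h3
  have h4 : c z = 0 := by linarith
  funext j
  show c j = 0
  rcases Nat.eq_zero_or_pos (j : ℕ) with h5 | h5
  · have : j = z := Fin.ext (by rw [h5, hz])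
    rw [this, h4]
  · by_cases h6 : (j : ℕ) + 1 < m
    · rw [← h1 j h5 h6, h4]
    · have h7 : Fin.rev j = z := Fin.ext (by rw [Fin.val_rev, hz]; have := j.2; omega)
      have h8 := hc j
      rw [h7, h4] at h8
      linarith

theorem climb_aux {m : ℕ} (hm : m = 3 ∨ 5 ≤ m) (l : RI m)
    (hl : ¬ ((l.1.1 : ℕ) = 0 ∧ (l.1.2 : ℕ) + 2 = m)) : ∃ l' : RI m, l' ≠ l ∧
      EE l.1.1 l.1.2 * EE l'.1.1 l'.1.2 - EE l'.1.1 l'.1.2 * EE l.1.1 l.1.2 ≠ 0 := by
  obtain ⟨⟨i, j⟩, h1, h2⟩ := l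
  simp only at h1 h2 hl ⊢
  rw [Fin.lt_def] at h1
  have hi := i.2
  have hj := j.2
  obtain ⟨z, hz⟩ : ∃ z : Fin m, (z : ℕ) = 0 := ⟨⟨0, by omega⟩, rfl⟩
  obtain ⟨o, ho⟩ : ∃ o : Fin m, (o : ℕ) = 1 := ⟨⟨1, by omega⟩, rfl⟩
  by_cases h3 : (i : ℕ) = 0
  · have h4 : (j : ℕ) + 2 ≠ m := fun h => hl ⟨h3, h⟩
    have hne : ∀ (u v : Fin m) (hp : ((u, v) : Fin m × Fin m).1 < ((u, v) : Fin m × Fin m).2 ∧
        ((((u, v) : Fin m × Fin m).1 : ℕ) + ((u, v) : Fin m × Fin m).2 + 1 < m)),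
        (u : ℕ) = 1 → (⟨(u, v), hp⟩ : RI m) ≠ ⟨(i, j), by rw [Fin.lt_def]; exact h1, h2⟩ := by
      intro u v hp hu heq
      have h5 : u = i := congrArg (fun q : RI m => q.1.1) heq
      rw [h5] at hu
      omega
    by_cases h5 : (j : ℕ) = 1
    · -- `l' = (1, 2)`
      obtain ⟨w, hw⟩ : ∃ w : Fin m, (w : ℕ) = 2 := ⟨⟨2, by omega⟩, rfl⟩
      refine ⟨⟨(o, w), by rw [Fin.lt_def]; simp only; omega, by simp only; omega⟩, hne _ _ _ ho, ?_⟩
      intro h0
      have h6 := congrFun (congrFun h0 z) w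
      rw [Matrix.sub_apply, EE_mul, EE_mul, Matrix.zero_apply] at h6
      simp only [EE_apply, Fin.ext_iff, Fin.val_rev, hz, ho, hw, h3, h5] at h6
      have e1 : ¬ (0 = m - (1 + 1)) := by omega
      have e2 : ¬ (0 = 1) := by omega
      have e3 : ¬ (0 = m - (2 + 1)) := by omega
      have e4 : ¬ (1 = m - (2 + 1)) := by omega
      simp [e1, e2, e3, e4] at h6
    · -- `l' = (1, rev j)`
      refine ⟨⟨(o, Fin.rev j), by rw [Fin.lt_def, Fin.val_rev]; simp only; omega, by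
        simp only [Fin.val_rev]; omega⟩, hne _ _ _ ho, ?_⟩
      intro h0
      have h6 := congrFun (congrFun h0 z) (Fin.rev o)
      rw [Matrix.sub_apply, EE_mul, EE_mul, Matrix.zero_apply] at h6
      simp only [EE_apply, Fin.ext_iff, Fin.val_rev, hz, ho, h3] at h6
      have e1 : ¬ ((j : ℕ) = 1) := h5
      have e2 : ¬ (0 = 1) := by omega
      have e3 : (j : ℕ) = m - (m - (j + 1) + 1) := by omega
      have e4 : ¬ (0 = m - (j + 1)) := by omega
      have e5 : ¬ (0 = (j : ℕ)) := by omega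
      have e6 : ¬ (0 = m - (m - (j + 1) + 1)) := by omega
      simp [e1, e2, ← e3, e4, e5] at h6
  · -- `l' = (0, i)`
    refine ⟨⟨(z, i), by rw [Fin.lt_def]; simp only; omega, by simp only; omega⟩, ?_, ?_⟩
    · intro heq
      have h5 : z = i := congrArg (fun q : RI m => q.1.1) heq
      rw [← h5] at h3
      exact h3 hz
    · intro h0
      have h6 := congrFun (congrFun h0 z) j
      rw [Matrix.sub_apply, EE_mul, EE_mul, Matrix.zero_apply] at h6
      simp only [EE_apply, Fin.ext_iff, Fin.val_rev, hz] at h6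
      have e1 : ¬ (0 = (i : ℕ)) := by omega
      have e2 : ¬ (0 = m - (j + 1)) := by omega
      have e3 : ¬ ((i : ℕ) = m - (j + 1)) := by omega
      have e4 : ¬ (0 = m - (i + 1)) := by omega
      simp [e1, e2, e3, e4] at h6

theorem EE_rat {m : ℕ} (i j a b : Fin m) : ∃ q : ℚ, EE i j a b = (q : ℝ) := by
  rw [EE_apply]
  by_cases h1 : a = i ∧ b = j
  · rw [if_pos h1]
    by_cases h2 : a = Fin.rev j ∧ b = Fin.rev i
    · rw [if_pos h2]
      exact ⟨0, by norm_num⟩
    · rw [if_neg h2]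
      exact ⟨1, by norm_num⟩
  · rw [if_neg h1]
    by_cases h2 : a = Fin.rev j ∧ b = Fin.rev i
    · rw [if_pos h2]
      exact ⟨-1, by norm_num⟩
    · rw [if_neg h2]
      exact ⟨0, by norm_num⟩

/-- the linear space `b` of the datum, with the type written out -/
def bSO (m : ℕ) : Submodule ℝ (Fin m → ℝ) := (datSO m).b

/-- the Lie algebra `n` of the datum, with the type written out -/
def nSO (m : ℕ) : Submodule ℝ (Matrix (Fin m) (Fin m) ℝ) := (datSO m).n

theorem mem_bSO {m : ℕ} {c : Fin m → ℝ} : c ∈ bSO m ↔ ∀ i, c (Fin.rev i) = - c i := Iff.rfl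

theorem mem_nSO {m : ℕ} {x : Matrix (Fin m) (Fin m) ℝ} : x ∈ nSO m ↔ SU x ∧
    ∀ i j, x (Fin.rev j) (Fin.rev i) = - 1 * 1 * x i j := Iff.rfl

theorem EE_mem {m : ℕ} {i j : Fin m} (h : i < j) : EE i j ∈ nSO m := by
  rw [mem_nSO]
  refine ⟨EE_su h, fun a b => ?_⟩
  rw [EE_anti i j a b]
  ring

theorem span_aux (m : ℕ) :
    Submodule.span ℝ (Set.range (fun l : RI m => EE l.1.1 l.1.2)) = nSO m := by
  apply le_antisymm
  · rw [Submodule.span_le]
    rintro _ ⟨l, rfl⟩
    exact EE_mem l.2.1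
  · intro x hx
    rw [mem_nSO] at hx
    have hx2 : ∀ a b : Fin m, x (Fin.rev b) (Fin.rev a) = - x a b := by
      intro a b
      rw [hx.2 a b]
      ring
    have h3 : x = ∑ l : RI m, x l.1.1 l.1.2 • EE l.1.1 l.1.2 := by
      refine ext_fund hx.1 (sum_su _) hx2 (sum_anti _) fun l => ?_
      rw [sum_fund]
    rw [h3]
    exact Submodule.sum_mem _ fun l _ =>
      Submodule.smul_mem _ _ (Submodule.subset_span ⟨l, rfl⟩)

theorem lin_aux (m : ℕ) : LinearIndependent ℝ (fun l : RI m => EE l.1.1 l.1.2) := by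
  rw [Fintype.linearIndependent_iff]
  intro g hg l
  have h1 := congrFun (congrFun hg l.1.1) l.1.2
  rw [sum_fund] at h1
  exact h1

/-- the root of an index -/
noncomputable def rr (m : ℕ) (l : RI m) : bSO m →ₗ[ℝ] ℝ where
  toFun c := (c : Fin m → ℝ) l.1.1 - (c : Fin m → ℝ) l.1.2
  map_add' c d := by
    rw [Submodule.coe_add, Pi.add_apply, Pi.add_apply]
    ring
  map_smul' r c := by
    rw [Submodule.coe_smul, Pi.smul_apply, Pi.smul_apply, smul_eq_mul, smul_eq_mul, RingHom.id_apply,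
      smul_eq_mul]
    ring

theorem rr_apply (m : ℕ) (l : RI m) (c : bSO m) :
    rr m l c = (c : Fin m → ℝ) l.1.1 - (c : Fin m → ℝ) l.1.2 := rfl

theorem wt_rr (m : ℕ) (l : RI m) (c : bSO m) :
    diagonal (c : Fin m → ℝ) * EE l.1.1 l.1.2 - EE l.1.1 l.1.2 * diagonal (c : Fin m → ℝ) =
      rr m l c • EE l.1.1 l.1.2 := wt_aux (c : Fin m → ℝ) (mem_bSO.1 c.2) l.1.1 l.1.2

theorem pos_rr (m : ℕ) : ∃ a : bSO m, ∀ l, 0 < rr m l a := by
  refine ⟨⟨fun i => ((m : ℝ) - 1) / 2 - ((i : ℕ) : ℝ), ?_⟩, ?_⟩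
  · rw [mem_bSO]
    intro i
    have h1 : ((Fin.rev i : ℕ) : ℝ) = (m : ℝ) - ((i : ℕ) + 1) := by
      rw [Fin.val_rev, Nat.cast_sub (by have := i.2; omega)]
      push_cast
      ring
    rw [h1]
    ring
  · intro l
    rw [rr_apply]
    simp only
    have h1 : ((l.1.1 : ℕ) : ℝ) < ((l.1.2 : ℕ) : ℝ) := by exact_mod_cast l.2.1
    linarith

theorem sep_rr {m : ℕ} (hm : 3 ≤ m) (a : bSO m) (ha : ∀ l, rr m l a = 0) : a = 0 :=
  Subtype.ext (sep_aux hm (a : Fin m → ℝ) (mem_bSO.1 a.2) fun l => ha l)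

theorem nonprop_rr {m : ℕ} (l l' : RI m) (hne : l ≠ l') (t : ℝ) : rr m l ≠ t • rr m l' := by
  intro ht
  refine nonprop_aux hne t fun c hc => ?_
  have h1 := LinearMap.congr_fun ht ⟨c, mem_bSO.2 hc⟩
  rw [LinearMap.smul_apply, rr_apply, rr_apply, smul_eq_mul] at h1
  exact h1

theorem scal_rr (m : ℕ) (κ : Unit → ℝ) : ∃ S : bSO m →ₗ[ℝ] bSO m,
    ∀ l a, rr m l (S a) = κ () * rr m l a :=
  ⟨κ () • LinearMap.id, fun l a => by
    rw [LinearMap.smul_apply, LinearMap.id_apply, map_smul, smul_eq_mul]⟩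

/-- **SOM**. -/
theorem som : SomStmt := by
  intro m hm
  have hm3 : 3 ≤ m := by omega
  exact ⟨{
    ι := RI m
    fin := inferInstance
    dec := inferInstance
    e := fun l => (EE l.1.1 l.1.2 : Matrix (Fin m) (Fin m) ℝ)
    rat := fun l i j => EE_rat l.1.1 l.1.2 i j
    span_e := span_aux m
    lin := lin_aux m
    rt := rr m
    wt := wt_rr m
    pos := pos_rr m
    sep := sep_rr hm3
    nonprop := nonprop_rr
    J := Unit
    comp := fun _ => ()
    top := fun _ => ⟨(⟨0, by omega⟩, ⟨m - 2, by omega⟩), by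
      rw [Fin.lt_def]; simp only; omega, by simp only; omega⟩
    comp_top := fun _ => rfl
    climb := by
      intro l hl
      refine climb_aux hm l ?_
      rintro ⟨h1, h2⟩
      apply hl
      refine Subtype.ext (Prod.ext (Fin.ext h1) (Fin.ext ?_))
      show (l.1.2 : ℕ) = m - 2
      omega
    scal := fun κ _ => scal_rr m κ }⟩

end Pool.Agent.QSX.H49
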